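import Pool.Agent.N837.LP.GenW

set_option autoImplicit false

/-!
# A positive proportion of the even numbers miss the first `A log n` primes with index in a set

For every `A ≥ 1` and `0 < η ≤ 1`, for every large `X` and EVERY set `K` of natural numbers a positive
proportion of the even `N = 2 n` in `(X, X + X ^ η]` is such that `N - p` is composite (with a prime
factor at most `X ^ (η δ)`) for each prime `p < N` with `π(p) ∈ K` which has at most `A log X` smaller
primes with index in `K`.  The problem is the case of the set `K` of the primes.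
-/

namespace Pool.Agent.Results.MP_5d7b92_nt.FrequentLateSummands

open Classical in
theorem result (δ : ℝ) (hδ : 0 < δ) :
    ∃ C : ℝ, 0 < C ∧ ∀ A η : ℝ, 1 ≤ A → 0 < η → η ≤ 1 →
    ∃ X₀ : ℝ, ∀ X : ℝ, X₀ ≤ X → ∀ K : Set ℕ,
    X ^ η * Real.exp (-Real.exp (C * A / η)) ≤
      (({N : ℕ | Even N ∧ X < N ∧ (N : ℝ) ≤ X + X ^ η ∧
        ∀ p : ℕ, p.Prime → Nat.primeCounting p ∈ K → p < N →
          (((Finset.range p).filter
            (fun t : ℕ => t.Prime ∧ Nat.primeCounting t ∈ K)).card : ℝ) ≤ A * Real.log X →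
          ∃ q : ℕ, q.Prime ∧ (q : ℝ) ≤ X ^ (η * δ) ∧ q ∣ N - p ∧ q < N - p}).ncard : ℝ) := by
  obtain ⟨C, hC, h⟩ := Pool.Agent.N837.LP.genFirst δ hδ
  refine ⟨C, hC, fun A η hA hη hη1 => ?_⟩
  obtain ⟨X₀, hX₀⟩ := h A η hA hη hη1
  refine ⟨X₀, fun X hX K => ?_⟩
  have h1 := hX₀ X hX (fun t : ℕ => t.Prime ∧ Nat.primeCounting t ∈ K) 0
  refine h1.trans (Nat.cast_le.2 (Set.ncard_le_ncard ?_ ?_))
  · intro n hn
    obtain ⟨q1, q2, q3, q4⟩ := hn
    refine ⟨?_, q1, q2, fun s hs hs2 hsn hc => q4 s ⟨hs, hs2⟩ hsn (by convert hc)⟩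
    have e1 : (n : ℤ) % 2 = 0 := by simpa using q3
    have e2 : n % 2 = 0 := by omega
    exact Nat.even_iff.2 e2
  · apply (Set.finite_Iic ⌊X + X ^ η⌋₊).subset
    intro a ha
    obtain ⟨_, _, h2, _⟩ := ha
    rw [Set.mem_Iic]
    exact Nat.le_floor h2

end Pool.Agent.Results.MP_5d7b92_nt.FrequentLateSummands
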