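import Pool.Agent.N251.LF.Dyadic
import Pool.Agent.Results.MP_5d7b92_nt.LinearEquations

/-!
# Goldbach's problem with a prime-indexed prime: all numbers and all equations near generic linear forms

Let `A` be a set of natural numbers which contains, for all large `X`, at least the proportion `δ > 0` of the prime-indexed
primes up to `X` (the primes `p ≤ X` for which `π(p)` is prime; for instance all of them). Let `v_i`, `i` in a countable set, be
vectors in `ℝ^k`, `O(X^(τ + η))` of them of norm at most `X` for every `η > 0`: for instance `(1, n, …, n^d)` with `τ = 1 / d`, or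
`(b_1^(n_1), …, b_k^(n_k))`, `b_j > 1`, for all `n_1, …, n_k`, with `τ = 0`. Let `θ < 1`.

(a) For all `α` in `ℝ^k` outside a set of Hausdorff dimension at most `k - 1 + τ / (1 - θ)`, for all `B` and `w` and all but
finitely many `i`: for EVERY natural number `n` with `|n - α · v_i| ≤ w ‖v_i‖^θ` and all powers of two `X` between `n^(3/4)` and
`(4 + n)^B` there are at least `c X / (log X)^2` prime-indexed primes `p ≤ X` in `A` such that `|n - p|` is a product `k s`,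
where all prime factors of `k` are `< X^ε` and `s` has at most three prime factors, all `≥ X^(1/8)`. (With `X ≤ n < 2 X` all
these are representations `n = p + k s`.)

(b) For all real `2 × k` matrices `α` outside a set of Hausdorff dimension at most `2 (k - 1) + τ / (1 - θ)`, for all `B` and
`w` and all but finitely many `i`: the same holds with `|n - m p|` for ALL coprime integers `n`, `m ≥ 1` with `(n, m)` within
`w ‖v_i‖^θ` of `α v_i` and all powers of two `X` with `|n| ≤ X^(4/3)`, `m ≤ X^(1/3)`, `X ≤ (3 + |n| + m)^B`.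

For example, for `τ = 0`: for all `(α_1, α_2)` outside a set of dimension one all integers within `T^0.99` of the numbers
`T = α_1 2^m + α_2 3^n` have such representations, with finitely many exceptions.

Proof. By the starting theorem `LinearEquations` there are at most `C log X` exceptional pairs for each `X`, so only
`O((log X)^2)` of the pairs up to `X` are exceptional for some power of two. For each `i` the set of the `α` with an exceptional
pair in the window is contained in few slabs; they are covered by small cubes (`Pool.Agent.N251.LF`).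
-/

set_option autoImplicit false

open Finset

namespace Pool.Agent.Results.MP_5d7b92_nt.GenericLinearForms

open Pool.Agent.N251.LF (Fam Sq tuple_windows linear_windows thin_dyadic)
open Pool.Agent.Results.MP_5d7b92_nt.LinearEquations (indexed Rep)

open Classical in
/-- `A` contains at least the proportion `δ` of the prime-indexed primes up to `X`, for all large `X` -/
def Dense (δ : ℝ) (A : Set ℕ) : Prop :=
  ∃ X₀ : ℕ, ∀ X : ℕ, X₀ ≤ X → δ * (indexed X).card ≤ ((indexed X).filter (fun p => p ∈ A)).card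

open Classical in
/-- for all powers of two `X ≥ 2` with `|n| ≤ X ^ (4 / 3)`, `m ≤ X ^ (1 / 3)` and `X ≤ (3 + |n| + m) ^ B` at least
`c X / (log X) ^ 2` prime-indexed primes `p ≤ X` in `A` satisfy `Rep X ε n m p` -/
def Many (A : Set ℕ) (ε c : ℝ) (B : ℕ) (n : ℤ) (m : ℕ) : Prop :=
  ∀ (j X : ℕ), 1 ≤ j → X = 2 ^ j → |(n : ℝ)| ≤ (X : ℝ) ^ (4 / 3 : ℝ) → (m : ℝ) ≤ (X : ℝ) ^ (1 / 3 : ℝ) →
    (X : ℝ) ≤ (3 + |(n : ℝ)| + m) ^ B →
    c * (X / Real.log X ^ 2) ≤ ((indexed X).filter (fun p => p ∈ A ∧ Rep X ε n m p)).card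

open Classical in
/-- the exceptional pairs for `X = 2 ^ j` -/
def Bad (A : Set ℕ) (ε c : ℝ) (j : ℕ) : Set (ℤ × ℕ) :=
  {t | Int.gcd t.1 t.2 = 1 ∧ |(t.1 : ℝ)| ≤ ((2 ^ j : ℕ) : ℝ) ^ (4 / 3 : ℝ) ∧ 1 ≤ t.2 ∧
    (t.2 : ℝ) ≤ ((2 ^ j : ℕ) : ℝ) ^ (1 / 3 : ℝ) ∧
    (((indexed (2 ^ j)).filter (fun p => p ∈ A ∧ Rep (2 ^ j) ε t.1 t.2 p)).card : ℝ) <
      c * (((2 ^ j : ℕ) : ℝ) / Real.log ((2 ^ j : ℕ) : ℝ) ^ 2)}

lemma bad_bound {δ ε : ℝ} (hδ : 0 < δ) (hε : 0 < ε) : ∃ c : ℝ, 0 < c ∧ ∀ A : Set ℕ, Dense δ A →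
    ∃ C : ℝ, 0 ≤ C ∧ ∀ j : ℕ, 1 ≤ j → ∀ E : Finset (ℤ × ℕ), (∀ t ∈ E, t ∈ Bad A ε c j) → (E.card : ℝ) ≤ C * j := by
  classical
  obtain ⟨c, C, hc, h⟩ := LinearEquations.result δ ε hδ hε
  refine ⟨c, hc, fun A hA => ?_⟩
  obtain ⟨X₀, hX₀⟩ := hA
  have hl2 : 0 < Real.log 2 := Real.log_pos (by norm_num)
  refine ⟨|C| * Real.log 2 + (2 * X₀ ^ 2 + 1) * X₀, by positivity, fun j hj E hE => ?_⟩
  have hj1 : (1 : ℝ) ≤ j := by exact_mod_cast hj
  rcases Nat.lt_or_ge (2 ^ j) X₀ with hlt | hge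
  · have hX1 : (1 : ℝ) ≤ X₀ := by
      have : 1 ≤ X₀ := by
        have : 0 < 2 ^ j := by positivity
        omega
      exact_mod_cast this
    have hXX : ((2 ^ j : ℕ) : ℝ) ≤ X₀ := by exact_mod_cast hlt.le
    have hsub : E ⊆ Icc (-(X₀ ^ 2 : ℤ)) (X₀ ^ 2 : ℤ) ×ˢ Icc 1 X₀ := by
      intro t ht
      obtain ⟨-, h2, h3, h4, -⟩ := hE t ht
      have h5 : ((2 ^ j : ℕ) : ℝ) ^ (4 / 3 : ℝ) ≤ (X₀ : ℝ) ^ 2 := by
        calc ((2 ^ j : ℕ) : ℝ) ^ (4 / 3 : ℝ) ≤ (X₀ : ℝ) ^ (4 / 3 : ℝ) :=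
              Real.rpow_le_rpow (by positivity) hXX (by norm_num)
          _ ≤ (X₀ : ℝ) ^ (2 : ℝ) := Real.rpow_le_rpow_of_exponent_le hX1 (by norm_num)
          _ = (X₀ : ℝ) ^ 2 := by rw [← Real.rpow_natCast]; norm_num
      have h6 : ((2 ^ j : ℕ) : ℝ) ^ (1 / 3 : ℝ) ≤ (X₀ : ℝ) := by
        calc ((2 ^ j : ℕ) : ℝ) ^ (1 / 3 : ℝ) ≤ (X₀ : ℝ) ^ (1 / 3 : ℝ) :=
              Real.rpow_le_rpow (by positivity) hXX (by norm_num)
          _ ≤ (X₀ : ℝ) ^ (1 : ℝ) := Real.rpow_le_rpow_of_exponent_le hX1 (by norm_num)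
          _ = (X₀ : ℝ) := Real.rpow_one _
      have h7 := abs_le.1 (h2.trans h5)
      rw [mem_product, mem_Icc, mem_Icc]
      refine ⟨⟨?_, ?_⟩, h3, ?_⟩
      · have : (-(X₀ ^ 2 : ℤ) : ℝ) ≤ (t.1 : ℝ) := by push_cast; exact h7.1
        exact_mod_cast this
      · have : ((t.1 : ℤ) : ℝ) ≤ ((X₀ ^ 2 : ℤ) : ℝ) := by push_cast; exact h7.2
        exact_mod_cast this
      · have : (t.2 : ℝ) ≤ X₀ := h4.trans h6
        exact_mod_cast this
    have h1 := card_le_card hsub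
    rw [card_product, Int.card_Icc, Nat.card_Icc] at h1
    have h2 : ((X₀ : ℤ) ^ 2 + 1 - -(X₀ : ℤ) ^ 2).toNat = 2 * X₀ ^ 2 + 1 := by
      have : (X₀ : ℤ) ^ 2 + 1 - -(X₀ : ℤ) ^ 2 = ((2 * X₀ ^ 2 + 1 : ℕ) : ℤ) := by
        push_cast
        ring
      rw [this, Int.toNat_natCast]
    rw [h2, Nat.add_sub_cancel] at h1
    have h3 : (E.card : ℝ) ≤ (2 * X₀ ^ 2 + 1) * X₀ := by exact_mod_cast h1
    have h4 : 0 ≤ |C| * Real.log 2 := by positivity
    have h5 : (0 : ℝ) ≤ (2 * X₀ ^ 2 + 1) * X₀ := by positivity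
    nlinarith
  · have h2 : 2 ≤ 2 ^ j := by
      calc 2 = 2 ^ 1 := by norm_num
        _ ≤ 2 ^ j := Nat.pow_le_pow_right (by norm_num) hj
    have h1 := h (2 ^ j) h2 ((indexed (2 ^ j)).filter (fun p => p ∈ A)) (filter_subset _ _) (hX₀ _ hge) E (by
      intro t ht
      obtain ⟨a1, a2, a3, a4, a5⟩ := hE t ht
      refine ⟨a1, a2, a3, a4, lt_of_le_of_lt (le_of_eq ?_) a5⟩
      rw [filter_filter])
    have h3 : C * Real.log ((2 ^ j : ℕ) : ℝ) ≤ |C| * Real.log 2 * j := by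
      push_cast
      rw [Real.log_pow]
      calc C * (j * Real.log 2) ≤ |C| * (j * Real.log 2) :=
            mul_le_mul_of_nonneg_right (le_abs_self C) (by positivity)
        _ = |C| * Real.log 2 * j := by ring
    have h5 : (0 : ℝ) ≤ (2 * X₀ ^ 2 + 1) * X₀ := by positivity
    nlinarith

open Classical in
/-- **Theorem.** Let `δ > 0` and `ε > 0`. There is `c > 0` such that for all sets `A` which contain the proportion `δ` of the
prime-indexed primes, all families `v` of vectors in `ℝ^k` of exponent `τ ≥ 0` and all `θ < 1`: (a) for all `α` in `ℝ^k` outside a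
set of Hausdorff dimension at most `k - 1 + τ / (1 - θ)`, all `B`, `w` and all but finitely many `i` EVERY natural number `n`
with `|n - ∑ α_j v_(i,j)| ≤ w ‖v_i‖^θ` satisfies `Many A ε c B n 1`; (b) for all real `2 × k` matrices `α` outside a set of
Hausdorff dimension at most `2 (k - 1) + τ / (1 - θ)`, all `B`, `w` and all but finitely many `i` ALL coprime integers `n`,
`m ≥ 1` with `(n, m)` within `w ‖v_i‖^θ` of `α v_i` satisfy `Many A ε c B n m`. Then examples of families. -/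
theorem result :
    (∀ δ ε : ℝ, 0 < δ → 0 < ε → ∃ c : ℝ, 0 < c ∧ ∀ A : Set ℕ, Dense δ A →
      ∀ (k : ℕ) (ι : Type) (v : ι → Fin k → ℝ) (τ θ : ℝ), Fam v τ → 0 ≤ τ → θ < 1 →
      (∃ E : Set (Fin k → ℝ), dimH E ≤ ENNReal.ofReal ((k : ℝ) - 1 + τ / (1 - θ)) ∧
        ∀ α, α ∉ E → ∀ (B : ℕ) (w : ℝ),
          {i | ¬ ∀ n : ℕ, |(n : ℝ) - ∑ j, α j * v i j| ≤ w * ‖v i‖ ^ θ → Many A ε c B n 1}.Finite) ∧
      ∃ E : Set (Fin 2 × Fin k → ℝ), dimH E ≤ ENNReal.ofReal (2 * ((k : ℝ) - 1) + τ / (1 - θ)) ∧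
        ∀ α, α ∉ E → ∀ (B : ℕ) (w : ℝ),
          {i | ¬ ∀ (n : ℤ) (m : ℕ), 1 ≤ m → Int.gcd n m = 1 →
            |(n : ℝ) - ∑ j, α (0, j) * v i j| ≤ w * ‖v i‖ ^ θ →
            |(m : ℝ) - ∑ j, α (1, j) * v i j| ≤ w * ‖v i‖ ^ θ → Many A ε c B n m}.Finite) ∧
    (∀ d : ℕ, 1 ≤ d → Fam (fun (n : ℕ) (j : Fin (d + 1)) => (n : ℝ) ^ (j : ℕ)) (1 / d)) ∧
    (∀ (k : ℕ) (b : Fin k → ℝ), (∀ j, 1 < b j) → Fam (fun (n : Fin k → ℕ) (j : Fin k) => b j ^ n j) 0) ∧
    (∀ (k : ℕ) (a : Fin k → ℝ), (∀ j, 0 < a j) →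
      Fam (fun (n : Fin k → ℕ) (j : Fin k) => (n j : ℝ) ^ a j) (∑ j, 1 / a j)) ∧
    ∀ (k : ℕ) (u : Fin k → ℕ → ℝ) (τ : Fin k → ℝ), (∀ j, Sq (u j) (τ j)) →
      Fam (fun (n : Fin k → ℕ) (j : Fin k) => u j (n j)) (∑ j, τ j) := by
  refine ⟨fun δ ε hδ hε => ?_, Pool.Agent.N251.LF.examples⟩
  obtain ⟨c, hc, hb⟩ := bad_bound hδ hε
  refine ⟨c, hc, fun A hA k ι v τ θ hv hτ hθ => ?_⟩
  obtain ⟨C, hC, hbad⟩ := hb A hA
  constructor
  · -- natural numbers
    have key : ∀ B : ℕ, ∃ E : Set (Fin k → ℝ), dimH E ≤ ENNReal.ofReal ((k : ℝ) - 1 + τ / (1 - θ)) ∧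
        ∀ α, α ∉ E → ∀ w : ℝ,
          {i | ¬ ∀ n : ℕ, |(n : ℝ) - ∑ j, α j * v i j| ≤ w * ‖v i‖ ^ θ → Many A ε c B n 1}.Finite := by
      intro B
      have hthin := thin_dyadic (T := ℕ) (m := 1) (fun n _ => (n : ℝ)) (fun j => {n : ℕ | ((n : ℤ), 1) ∈ Bad A ε c j}) (2 * B) hC
        (fun j hj E hE => by
          have h1 := hbad j hj (E.image (fun n : ℕ => ((n : ℤ), 1))) (by
            intro t ht
            obtain ⟨n, hn, rfl⟩ := mem_image.1 ht
            exact hE n hn)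
          rwa [card_image_of_injective] at h1
          intro a b hab
          simpa using hab)
      obtain ⟨E, hE, hE2⟩ := linear_windows (s := 0) {n : ℕ | ∃ j : ℕ, 1 ≤ j ∧ (∃ _l : Fin 1, (2 : ℝ) ^ j ≤ (3 + |(n : ℝ)|) ^ (2 * B)) ∧
        n ∈ {n : ℕ | ((n : ℤ), 1) ∈ Bad A ε c j}} (fun n : ℕ => (n : ℝ)) v le_rfl hτ hθ hv (by
          intro e he
          obtain ⟨C', hC'⟩ := hthin e he
          refine ⟨C', fun X hX => ?_⟩
          have h1 := hC' X hX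
          have hset : {t : ℕ | t ∈ {n : ℕ | ∃ j : ℕ, 1 ≤ j ∧ (∃ _l : Fin 1, (2 : ℝ) ^ j ≤ (3 + |(n : ℝ)|) ^ (2 * B)) ∧
              n ∈ {n : ℕ | ((n : ℤ), 1) ∈ Bad A ε c j}} ∧ (t : ℝ) ≤ X} =
              {t : ℕ | t ∈ {n : ℕ | ∃ j : ℕ, 1 ≤ j ∧ (∃ _l : Fin 1, (2 : ℝ) ^ j ≤ (3 + |(n : ℝ)|) ^ (2 * B)) ∧
              n ∈ {n : ℕ | ((n : ℤ), 1) ∈ Bad A ε c j}} ∧ ∀ _l : Fin 1, |(t : ℝ)| ≤ X} := by
            ext t
            refine and_congr_right fun _ => ?_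
            rw [abs_of_nonneg (Nat.cast_nonneg t)]
            exact ⟨fun h _ => h, fun h => h 0⟩
          rw [hset]
          exact h1)
      rw [zero_add] at hE
      refine ⟨E, hE, fun α hα w => (hE2 α hα w).subset ?_⟩
      intro i hi
      by_contra hcon
      apply hi
      intro n hn j X hj hX h1 h2 h3
      by_contra hlt
      apply hcon
      subst hX
      refine ⟨n, ⟨j, hj, ⟨0, ?_⟩, ?_⟩, hn⟩
      · push_cast at h3
        refine h3.trans ?_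
        rw [pow_mul]
        refine pow_le_pow_left₀ (by positivity) ?_ B
        nlinarith [abs_nonneg (n : ℝ)]
      · refine ⟨by simp, h1, le_rfl, h2, not_le.1 hlt⟩
    choose E hE1 hE2 using key
    refine ⟨⋃ B, E B, ?_, fun α hα B w => hE2 B α (fun h => hα (Set.mem_iUnion.2 ⟨B, h⟩)) w⟩
    rw [dimH_iUnion]
    exact iSup_le hE1
  · have key : ∀ B : ℕ, ∃ E : Set (Fin 2 × Fin k → ℝ), dimH E ≤ ENNReal.ofReal (2 * ((k : ℝ) - 1) + τ / (1 - θ)) ∧
        ∀ α, α ∉ E → ∀ w : ℝ,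
          {i | ¬ ∀ (n : ℤ) (m : ℕ), 1 ≤ m → Int.gcd n m = 1 →
            |(n : ℝ) - ∑ j, α (0, j) * v i j| ≤ w * ‖v i‖ ^ θ →
            |(m : ℝ) - ∑ j, α (1, j) * v i j| ≤ w * ‖v i‖ ^ θ → Many A ε c B n m}.Finite := by
      intro B
      have hthin := thin_dyadic (T := ℤ × ℕ) (m := 2) (fun t => ![(t.1 : ℝ), (t.2 : ℝ)]) (Bad A ε c) (2 * B) hC hbad
      obtain ⟨E, hE, hE2⟩ := tuple_windows (s := 0) (m := 2) {t : ℤ × ℕ | ∃ j : ℕ, 1 ≤ j ∧
        (∃ l, (2 : ℝ) ^ j ≤ (3 + |(![(t.1 : ℝ), (t.2 : ℝ)] : Fin 2 → ℝ) l|) ^ (2 * B)) ∧ t ∈ Bad A ε c j}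
        (fun t : ℤ × ℕ => ![(t.1 : ℝ), (t.2 : ℝ)]) v le_rfl hτ hθ hv hthin
      rw [zero_add] at hE
      push_cast at hE
      refine ⟨E, hE, fun α hα w => (hE2 α hα w).subset ?_⟩
      intro i hi
      by_contra hcon
      apply hi
      intro n m hm hgcd hn1 hm1 j X hj hX h1 h2 h3
      by_contra hlt
      apply hcon
      subst hX
      refine ⟨(n, m), ⟨j, hj, ?_, hgcd, h1, hm, h2, not_le.1 hlt⟩, ?_⟩
      · push_cast at h3
        have hm0 : (0 : ℝ) ≤ m := Nat.cast_nonneg m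
        rcases le_total |(n : ℝ)| (m : ℝ) with h4 | h4
        · refine ⟨1, ?_⟩
          show (2 : ℝ) ^ j ≤ (3 + |(m : ℝ)|) ^ (2 * B)
          rw [abs_of_nonneg hm0, pow_mul]
          refine h3.trans (pow_le_pow_left₀ (by positivity) ?_ B)
          nlinarith
        · refine ⟨0, ?_⟩
          show (2 : ℝ) ^ j ≤ (3 + |(n : ℝ)|) ^ (2 * B)
          rw [pow_mul]
          refine h3.trans (pow_le_pow_left₀ (by positivity) ?_ B)
          nlinarith [abs_nonneg (n : ℝ)]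
      · intro l
        fin_cases l
        · exact hn1
        · exact hm1
    choose E hE1 hE2 using key
    refine ⟨⋃ B, E B, ?_, fun α hα B w => hE2 B α (fun h => hα (Set.mem_iUnion.2 ⟨B, h⟩)) w⟩
    rw [dimH_iUnion]
    exact iSup_le hE1

end Pool.Agent.Results.MP_5d7b92_nt.GenericLinearForms
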