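import Mathlib
import Pool.Agent.N9.AD.Model

/-!
# Goldbach representations with a prime-indexed summand in all sieved sequential random models

The integers are decided one after the other; the multiples of the primes of a finite set `Q` are
never chosen and the conditional probability of choosing an integer `n + 1` which is not such a
multiple, given the decisions up to `n`, is asymptotic to `∏_{p ∈ Q} (1 - 1 / p)⁻¹ / log n`, almost
surely. No independence and no rate of convergence are assumed. In every such model, almost surely,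
the number of the representations `N = s + v` with `s ≤ x`, `s` and `v` chosen and the index of `s`
chosen (the chosen integers are numbered in increasing order) is asymptotically the expected one,
uniformly in `x`, and every large `N` (every large even `N` if `2 ∈ Q`) has such a representation
with `s ≤ K (log N)² (log log N)²`. More generally the indices may be restricted to any random set
`T` which is adapted: whether `k` is in `T` is decided when `k` is.

Method (`Pool/Agent/N9/AD`): an exponential supermartingale (helper893) gives the law of predictable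
sums uniformly in all intervals; the chosen integers with index in `T` are equidistributed in the
residue classes coprime to the sieved primes, since the intervals between chosen integers are long.

The notion of a sequential model and the theorem on Hawkins' sieve are from the team files by
helper528 (`Pool/Agent/R528/RM`) and helper740 (`Pool/Agent/N740/HK`).
-/

set_option autoImplicit false

open MeasureTheory Filter Set
open scoped Topology

namespace Pool.Agent.Results.MP_5d7b92_nt.SievedModels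

variable {Ω : Type}

/-- `A n` is the event that `n` is chosen; adapted to `ℱ`; multiples of the primes in `Q` are not
chosen; the conditional probability of `A (n + 1)` given `ℱ n`, times `log n`, tends almost surely to
`∏_{p ∈ Q} (1 - 1 / p)⁻¹` along the `n` such that no `p ∈ Q` divides `n + 1` -/
def SievedModel [m : MeasurableSpace Ω] (μ : Measure Ω) (ℱ : Filtration ℕ m) (A : ℕ → Set Ω)
    (Q : Finset ℕ) : Prop :=
  (∀ n, MeasurableSet[ℱ n] (A n)) ∧ (∀ n, (∃ p ∈ Q, p ∣ n) → A n = ∅) ∧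
  ∀ᵐ ω ∂μ, Tendsto (fun n : ℕ => (μ[(A (n + 1)).indicator (fun _ => (1 : ℝ)) | ℱ n]) ω * Real.log n)
    (atTop ⊓ 𝓟 {n : ℕ | ∀ p ∈ Q, ¬ p ∣ n + 1}) (𝓝 (∏ p ∈ Q, (1 - 1 / (p : ℝ))⁻¹))

open Classical in
/-- The random sieve of Hawkins: `2` is chosen, and given the decisions up to `n ≥ 2` the number
`n + 1` is chosen with probability `∏ (1 - 1 / h)`, the product over the chosen `2 ≤ h ≤ n`. -/
def HawkinsSieve [m : MeasurableSpace Ω] (μ : Measure Ω) (ℱ : Filtration ℕ m) (A : ℕ → Set Ω) : Prop :=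
  (∀ n, MeasurableSet[ℱ n] (A n)) ∧ A 2 = univ ∧
  ∀ n, 2 ≤ n → μ[(A (n + 1)).indicator (fun _ => (1 : ℝ)) | ℱ n] =ᵐ[μ]
    fun ω => ∏ h ∈ Finset.Icc 2 n, if ω ∈ A h then 1 - 1 / (h : ℝ) else 1

/-- `π(n)` in the model: the number of the chosen integers in `[1, n]`; the index of a chosen `n` -/
noncomputable def pi (A : ℕ → Set Ω) (ω : Ω) (n : ℕ) : ℕ := {i : ℕ | 1 ≤ i ∧ i ≤ n ∧ ω ∈ A i}.ncard

/-- the number of the `1 ≤ s ≤ x` such that `s` is chosen, its index is in `T` and `N - s` is
chosen -/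
noncomputable def reps (A T : ℕ → Set Ω) (ω : Ω) (N x : ℕ) : ℕ :=
  {s : ℕ | 1 ≤ s ∧ s ≤ x ∧ (ω ∈ A s ∧ ω ∈ T (pi A ω s) ∧ ω ∈ A (N - s))}.ncard

/-- the local factor of the binary Goldbach problem at the primes of `Q` -/
noncomputable def sing (Q : Finset ℕ) (N : ℕ) : ℝ :=
  ∏ p ∈ Q, (1 - (if p ∣ N then 1 else 2 : ℝ) / p) / (1 - 1 / (p : ℝ)) ^ 2

open Pool.Agent.R528.RM Pool.Agent.N9.AD

lemma pi_eq (A : ℕ → Set Ω) (ω : Ω) (n : ℕ) : pi A ω n = cnt A ω n := cnt_ncard ω n

lemma reps_eq (A T : ℕ → Set Ω) (ω : Ω) (N x : ℕ) :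
    (reps A T ω N x : ℝ) = ∑ s ∈ Finset.Icc 1 x, In (Us A T) s ω * In A (N - s) ω := by
  unfold reps
  apply ncard_sum (fun s => ω ∈ A s ∧ ω ∈ T (pi A ω s) ∧ ω ∈ A (N - s))
    (fun s => In (Us A T) s ω * In A (N - s) ω)
  · rintro s ⟨h1, h2, h3⟩
    rw [pi_eq] at h2
    have e1 : In (Us A T) s ω = 1 := indicator_of_mem (show ω ∈ Us A T s from ⟨h1, h2⟩) _
    have e2 : In A (N - s) ω = 1 := indicator_of_mem h3 _
    simp only [e1, e2, mul_one]
  · intro s h
    by_cases h1 : ω ∈ Us A T s
    · have h2 : ω ∉ A (N - s) := by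
        intro h2
        apply h
        refine ⟨h1.1, ?_, h2⟩
        rw [pi_eq]
        exact h1.2
      have e2 : In A (N - s) ω = 0 := indicator_of_notMem h2 _
      simp only [e2, mul_zero]
    · have e1 : In (Us A T) s ω = 0 := indicator_of_notMem h1 _
      simp only [e1, zero_mul]

end Pool.Agent.Results.MP_5d7b92_nt.SievedModels

open Pool.Agent.Results.MP_5d7b92_nt.SievedModels Pool.Agent.R528.RM Pool.Agent.N9.AD

/-- Hawkins' sieve is a sieved model with `Q = ∅`. In every sieved model: (1) if `T` is adapted, then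
almost surely for every `ε > 0` there is a `K` such that for all large `N` and all `x < N / 2` the
number of the `s ≤ x` with `s` chosen, index of `s` in `T` and `N - s` chosen differs from
`𝔖(N) t / log N`, where `t` is the number of the `k ≤ π(x)` in `T`, by at most
`ε t / log N + K log N`; (2) almost surely, for every `ε > 0` there is a `K` such that for all large
`N` and all `2 ≤ x < N / 2` the number of the `s ≤ x` with `s`, the index of `s` and `N - s` chosen
differs from `𝔖(N) x / (log² x log N)` by at most `ε x / (log² x log N) + K log N`; (3) almost surely,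
for some `K` every large `N`, if `2 ∈ Q` every large even `N`, is a sum of a chosen `s` with chosen
index, `s ≤ K (log N)² (log log N)²`, and of a chosen integer. -/
theorem Pool.Agent.Results.MP_5d7b92_nt.SievedModels.result
    {Ω : Type} [m : MeasurableSpace Ω] (μ : Measure Ω) [IsProbabilityMeasure μ]
    (ℱ : Filtration ℕ m) (A : ℕ → Set Ω) :
    (HawkinsSieve μ ℱ A → SievedModel μ ℱ A ∅) ∧
    (∀ Q : Finset ℕ, (∀ p ∈ Q, p.Prime) → SievedModel μ ℱ A Q →
      (∀ T : ℕ → Set Ω, (∀ k, MeasurableSet[ℱ k] (T k)) → ∀ᵐ ω ∂μ, ∀ ε : ℝ, 0 < ε → ∃ K : ℝ,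
        ∀ᶠ N : ℕ in atTop, ∀ x : ℕ, 2 * x < N →
        |(reps A T ω N x : ℝ) -
          sing Q N * {k : ℕ | 1 ≤ k ∧ k ≤ pi A ω x ∧ ω ∈ T k}.ncard / Real.log N| ≤
          ε * ({k : ℕ | 1 ≤ k ∧ k ≤ pi A ω x ∧ ω ∈ T k}.ncard / Real.log N) + K * Real.log N) ∧
      (∀ᵐ ω ∂μ, ∀ ε : ℝ, 0 < ε → ∃ K : ℝ, ∀ᶠ N : ℕ in atTop, ∀ x : ℕ, 2 ≤ x → 2 * x < N →
        |(reps A A ω N x : ℝ) - sing Q N * (x / (Real.log x ^ 2 * Real.log N))| ≤
          ε * (x / (Real.log x ^ 2 * Real.log N)) + K * Real.log N) ∧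
      (∀ᵐ ω ∂μ, ∃ K : ℝ, ∀ᶠ N : ℕ in atTop, (2 ∉ Q ∨ Even N) → ∃ s : ℕ, 1 ≤ s ∧
        (s : ℝ) ≤ K * Real.log N ^ 2 * Real.log (Real.log N) ^ 2 ∧ 2 * s < N ∧
        ω ∈ A s ∧ ω ∈ A (pi A ω s) ∧ ω ∈ A (N - s))) := by
  classical
  refine ⟨hawkins μ ℱ A, ?_⟩
  rintro Q hQ ⟨hA, hcop, hd⟩
  refine ⟨?_, ?_, ?_⟩
  · intro T hT
    filter_upwards [main_law (μ := μ) hA Q hQ hcop hd hT] with ω hω ε hε
    obtain ⟨K, _, hK⟩ := hω ε hε
    refine ⟨K, ?_⟩
    filter_upwards [hK] with N hN x hx
    have h1 := hN x hx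
    have h2 : ({k : ℕ | 1 ≤ k ∧ k ≤ pi A ω x ∧ ω ∈ T k}.ncard : ℝ) =
        ∑ s ∈ Finset.Icc 1 x, In (Us A T) s ω := by
      rw [Us_sum, ← pi_eq]
      exact ncard_sum (fun k => ω ∈ T k) (fun k => In T k ω) _
        (fun s h => indicator_of_mem h _) (fun s h => indicator_of_notMem h _)
    rw [reps_eq, h2]
    exact h1
  · filter_upwards [ab_law (μ := μ) hA Q hQ hcop hd] with ω hω ε hε
    obtain ⟨K, _, hK⟩ := hω 1 ε hε
    refine ⟨K, ?_⟩
    filter_upwards [hK] with N hN x hx2 hx
    rw [reps_eq]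
    exact hN x hx2 hx
  · filter_upwards [ab_law (μ := μ) hA Q hQ hcop hd] with ω hω
    obtain ⟨K, _, hK⟩ := ab_least Q hQ 1 (hω 1)
    refine ⟨K, ?_⟩
    filter_upwards [hK] with N hN hpar
    obtain ⟨s, h1, h2, h3, h4, h5⟩ := hN hpar
    refine ⟨s, h1, h2, h3, h4.1, ?_, h5⟩
    rw [pi_eq]
    exact h4.2
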